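import Pool.Agent.T2h20.X15.MAIN
import Pool.Agent.T2h4.X15.TR
import Pool.Agent.T2h4.X15.WD

/-!
Two points of projective space with the same closure have a common field of definition.
-/

set_option autoImplicit false

open FF FF.PP MvPolynomial Pool.Agent.Z15P.Z15.H Pool.Agent.Z15P.Z15.J Pool.Agent.Z15P.Z15.J.Stm
  Pool.Agent.Z15P.Z15.S Pool.Agent.Z15P.Z15.W

namespace Pool.Agent.Z15P.Rel

open Pool.Agent.Z15P.T2h64.H15 (cyc_scale locus_scale ratio_scale locus_map ratio_map)
open Pool.Agent.Z15P.T2h99.J (locus_ne adjoin_top ker_eq exists_iso)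

/-- a representative of the point over the field of ratios -/
theorem exists_norm {K E μ : Type} [Field K] [Field E] [Algebra K E] (t : μ → E) (j : μ)
    (hj : t j ≠ 0) : ∃ e : μ → ratioField K t, (∀ i, (e i : E) = (t j)⁻¹ * t i) ∧
      locus K e = locus K t ∧ ratioField K e = ⊤ ∧ e j = 1 := by
  set R := ratioField K t with hR
  have hmem : ∀ i, (t j)⁻¹ * t i ∈ R := fun i => by
    rw [hR, inv_mul_eq_div]
    exact IntermediateField.subset_adjoin _ _ ⟨i, j, rfl⟩
  obtain ⟨e', he'⟩ : ∃ e' : μ → R, ∀ i, (e' i : E) = (t j)⁻¹ * t i := ⟨fun i => ⟨_, hmem i⟩, fun i => rfl⟩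
  have he'' : (fun i => algebraMap R E (e' i)) = fun i => (t j)⁻¹ * t i := funext he'
  have hloc : locus K e' = locus K t := by
    have h1 := locus_map (IsScalarTower.toAlgHom K R E) e'
    rw [← h1, ← locus_scale t _ (inv_ne_zero hj)]
    congr 1
  have hrat : ratioField K e' = ⊤ := by
    have h1 := ratio_map (IsScalarTower.toAlgHom K R E) e'
    have h2 : ratioField K (fun i => (IsScalarTower.toAlgHom K R E) (e' i)) = R := by
      have h3 : (fun i => (IsScalarTower.toAlgHom K R E) (e' i)) = fun i => (t j)⁻¹ * t i := funext he'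
      rw [h3, ratio_scale t _ (inv_ne_zero hj)]
    rw [h2] at h1
    rw [eq_top_iff]
    intro x _
    have hx : (x : E) ∈ (ratioField K e').map (IsScalarTower.toAlgHom K R E) := by
      rw [← h1]
      exact x.2
    obtain ⟨y, hy, hyx⟩ := hx
    have : y = x := Subtype.ext hyx
    rw [← this]
    exact hy
  refine ⟨e', he', hloc, hrat, ?_⟩
  apply Subtype.ext
  rw [he' j, inv_mul_cancel₀ hj]
  rfl

/-- a common field of definition -/
theorem exists_comp {K E K1 μ : Type} [Field K] [Field E] [Field K1] [Algebra K E] [Algebra K K1]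
    [Fintype μ] (t : μ → E) (t1 : μ → K1) (j : μ) (hj : t j ≠ 0) (h : locus K t = locus K t1)
    (hess : Algebra.EssFiniteType K K1) (halg : Algebra.IsAlgebraic (ratioField K t1) K1) :
    ∃ (κ : Type) (_ : Field κ) (_ : Algebra K κ) (_ : Algebra E κ) (_ : Algebra K1 κ)
      (_ : IsScalarTower K E κ) (_ : IsScalarTower K K1 κ) (_ : FiniteDimensional E κ) (u : κ),
      u ≠ 0 ∧ ∀ i, algebraMap K1 κ (t1 i) = u * algebraMap E κ (t i) := by
  have hj1 : t1 j ≠ 0 := locus_ne (K1 := K) h j hj
  obtain ⟨e, he, hel, her, hej⟩ := exists_norm (K := K) t j hj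
  obtain ⟨e1, he1, hel1, her1, hej1⟩ := exists_norm (K := K) t1 j hj1
  obtain ⟨ψ, hψ⟩ := exists_iso e e1 (adjoin_top e her)
    (ker_eq e e1 j hej hej1 (by rw [hel, hel1, h]))
  let R := ratioField K t
  let R1 := ratioField K t1
  -- `K1` as an algebra over `R`
  let f : R →+* K1 := (algebraMap R1 K1).comp ψ.toRingHom
  let _ : Algebra R K1 := f.toAlgebra
  have hmap : ∀ x : R, algebraMap R K1 x = (ψ x : K1) := fun x => rfl
  have : IsScalarTower K R K1 := IsScalarTower.of_algebraMap_eq fun x => by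
    rw [hmap, ψ.commutes]
    rfl
  have hess' : Algebra.EssFiniteType R K1 := Algebra.EssFiniteType.of_comp K R K1
  have hψs : Function.Surjective ψ := by
    intro y
    have hy : y ∈ IntermediateField.adjoin K (Set.range e1) := by rw [adjoin_top e1 her1]; trivial
    obtain ⟨r, s, hrs⟩ := (IntermediateField.mem_adjoin_range_iff K e1 y).1 hy
    refine ⟨aeval e r / aeval e s, ?_⟩
    rw [map_div₀, hrs]
    have hc : ∀ G : MvPolynomial μ K, ψ (aeval e G) = aeval e1 G := by
      intro G
      rw [comp_aeval_apply (φ := ψ)]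
      congr 1
      congr 1
      funext i
      exact hψ i
    rw [hc, hc]
  have halg' : Algebra.IsAlgebraic R K1 := by
    refine ⟨fun x => ?_⟩
    have h1 : IsAlgebraic R1 x := halg.isAlgebraic x
    refine h1.of_ringHom_of_comp_eq ψ.toRingHom (RingHom.id K1) hψs Function.injective_id ?_
    refine RingHom.ext fun y => ?_
    rfl
  have hfin : FiniteDimensional R K1 := Algebra.finite_of_essFiniteType_of_isAlgebraic
  let Ω := AlgebraicClosure E
  let σ : K1 →ₐ[R] Ω := IsAlgClosed.lift
  have hσR : ∀ x : R, σ (ψ x : K1) = algebraMap E Ω (x : E) := fun x => σ.commutes x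
  let b := Module.finBasis R K1
  let κ : IntermediateField E Ω := IntermediateField.adjoin E (Set.range fun i => σ (b i))
  have hmem : ∀ x : K1, σ x ∈ κ := by
    intro x
    rw [← b.sum_repr x, map_sum]
    refine sum_mem fun i _ => ?_
    rw [map_smul, Algebra.smul_def]
    refine mul_mem ?_ (IntermediateField.subset_adjoin _ _ ⟨i, rfl⟩)
    exact κ.algebraMap_mem (b.repr x i : E)
  let σ' : K1 →+* κ := σ.toRingHom.codRestrict κ.toSubring hmem
  have hσ' : ∀ x, ((σ' x : κ) : Ω) = σ x := fun x => rfl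
  have hfinκ : FiniteDimensional E κ :=
    IntermediateField.finiteDimensional_adjoin fun x hx =>
      (Algebra.IsAlgebraic.isAlgebraic x).isIntegral
  let _ : Algebra K1 κ := σ'.toAlgebra
  have htow : IsScalarTower K K1 κ := IsScalarTower.of_algebraMap_eq fun x => by
    apply Subtype.ext
    show _ = σ (algebraMap K K1 x)
    rw [IsScalarTower.algebraMap_apply K R K1, σ.commutes]
    rfl
  refine ⟨κ, inferInstance, inferInstance, inferInstance, inferInstance, inferInstance, htow, hfinκ,
    σ' (t1 j) * algebraMap E κ (t j)⁻¹, ?_, fun i => ?_⟩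
  · refine mul_ne_zero ?_ ?_
    · rw [Ne, map_eq_zero]
      exact hj1
    · rw [Ne, map_eq_zero]
      exact inv_ne_zero hj
  · apply Subtype.ext
    show σ (t1 i) = σ (t1 j) * algebraMap E Ω (t j)⁻¹ * algebraMap E Ω (t i)
    have h1 : t1 i = t1 j * (ψ (e i) : K1) := by
      rw [hψ i, he1 i, mul_inv_cancel_left₀ hj1]
    conv_lhs => rw [h1]
    rw [map_mul, hσR, he i, map_mul, mul_assoc]

end Pool.Agent.Z15P.Rel
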