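import Pool.Agent.Z15P.Z15.H.Defs
import Pool.Agent.Z15P.Z15.J.Chow

/-!
Cycles on families of projective varieties: subvarieties of a product of two projective spaces.

* The base is the projective variety `G c = 0` (`c ∈ γ`) with the homogeneous coordinates `t`.
* The family is given by the forms `F a` (`a ∈ α`) in variables `x`, whose coefficients are forms in `t`.
* Subvarieties of the product of the projective spaces with coordinates `t` and `x` are described by the
  homogeneous coordinates `t j * x i` (Segre embedding).
-/

set_option autoImplicit false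

open FF MvPolynomial Pool.Agent.Z15P.Z15.H Pool.Agent.Z15P.Z15.Chow

namespace Pool.Agent.Z15P.Rel

/-- the Segre coordinates `t j * x i` of the point `(t, x)` -/
def seg {μ ν A : Type} [Mul A] (t : μ → A) (x : ν → A) : μ × ν → A := fun i => t i.1 * x i.2

section

variable {K : Type} [Field K] {μ ν γ α : Type}

/-- the form `P(t, x)` in the variables `x`, for given `t` -/
noncomputable def spec {E : Type} [Field E] [Algebra K E] (t : μ → E)
    (P : MvPolynomial ν (MvPolynomial μ K)) : MvPolynomial ν E :=
  MvPolynomial.map (aeval t : MvPolynomial μ K →ₐ[K] E).toRingHom P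

/-- `(t, x)` is a point of the family with coordinates in `E`. -/
structure IsPt (G : γ → MvPolynomial μ K) (F : α → MvPolynomial ν (MvPolynomial μ K)) {E : Type}
    [Field E] [Algebra K E] (t : μ → E) (x : ν → E) : Prop where
  t_ne : t ≠ 0
  x_ne : x ≠ 0
  base : ∀ c, aeval t (G c) = 0
  fib : ∀ a, eval x (spec t (F a)) = 0

variable (K)

/-- The cycles of dimension `l` on the family which are rationally equivalent to zero: the group
generated by the push-forwards of the divisors of rational functions `h ≠ 0` on varieties of dimension
`l + 1`, with function field `M`, which map to the family by `(t, x)`. -/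
noncomputable def Rat (l : ℕ) (G : γ → MvPolynomial μ K)
    (F : α → MvPolynomial ν (MvPolynomial μ K)) : AddSubgroup (Set (MvPolynomial (μ × ν) K) →₀ ℤ) :=
  AddSubgroup.closure {D | ∃ (M : Type) (_ : Field M) (_ : Algebra K M) (t : μ → M) (x : ν → M)
    (h : M), Algebra.EssFiniteType K M ∧ Algebra.trdeg K M = (l + 1 : ℕ) ∧ IsPt G F t x ∧ h ≠ 0 ∧
      IsDivisor l (seg t x) h D}

/-- The group of cycles of dimension `l` on the family: it is generated by the images of varieties of
dimension `l` with function field `E` under the rational maps `(t, x)` to the family. -/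
noncomputable def Cycles (l : ℕ) (G : γ → MvPolynomial μ K)
    (F : α → MvPolynomial ν (MvPolynomial μ K)) : AddSubgroup (Set (MvPolynomial (μ × ν) K) →₀ ℤ) :=
  AddSubgroup.closure {c | ∃ (E : Type) (_ : Field E) (_ : Algebra K E) (t : μ → E) (x : ν → E),
    Algebra.trdeg K E = l ∧ IsPt G F t x ∧ c = cyc K (seg t x)}

/-- The families of linear subspaces, as cycles of dimension `l`: let `W` be a subvariety of the base of
dimension `l - q`, with the generic point `t` and a generically finite covering with the function
field `E₀`, and let `Λ 0, …, Λ q` be linearly independent vectors with coordinates in `E₀` which span a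
linear subspace of the fibre of the family over `t`. The cycle is the family of these linear
subspaces: the point `(t, Λ 0 + ∑ j, θ j Λ (j + 1))` is its generic point (with multiplicity, as the
covering can have a degree larger than one), where `θ` are algebraically independent. -/
def Flags (l : ℕ) (G : γ → MvPolynomial μ K) (F : α → MvPolynomial ν (MvPolynomial μ K)) :
    Set (Set (MvPolynomial (μ × ν) K) →₀ ℤ) :=
  {c | ∃ (q : ℕ) (E₀ : Type) (_ : Field E₀) (_ : Algebra K E₀) (E : Type) (_ : Field E)
    (_ : Algebra K E) (_ : Algebra E₀ E) (_ : IsScalarTower K E₀ E) (t : μ → E₀) (Λ : ℕ → ν → E₀)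
    (θ : Fin q → E), Algebra.trdeg K E₀ + q = l ∧ t ≠ 0 ∧ (∀ c, aeval t (G c) = 0) ∧
    Algebra.IsAlgebraic (ratioField K t) E₀ ∧ (LinearIndependent E₀ fun j : Fin (q + 1) => Λ j) ∧
    (∀ a, ∀ c : Fin (q + 1) → E₀, eval (fun i => ∑ j, c j * Λ j i) (spec t (F a)) = 0) ∧
    AlgebraicIndependent E₀ θ ∧ IntermediateField.adjoin E₀ (Set.range θ) = ⊤ ∧
    c = cyc K (seg (fun i => algebraMap E₀ E (t i)) fun i =>
      algebraMap E₀ E (Λ 0 i) + ∑ j : Fin q, θ j * algebraMap E₀ E (Λ (j + 1) i))}

/-- Up to torsion, every cycle of dimension `l` on the family is rationally equivalent to a combination of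
families of linear subspaces. -/
def GeneratedByFlags (l : ℕ) (G : γ → MvPolynomial μ K)
    (F : α → MvPolynomial ν (MvPolynomial μ K)) : Prop :=
  ∀ Z ∈ Cycles K l G F, ∃ N : ℕ, 0 < N ∧
    N • Z ∈ Rat K l G F ⊔ AddSubgroup.closure (Flags K l G F)

end

end Pool.Agent.Z15P.Rel
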