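import Pool.Agent.Z15P.Rel.Defs

/-!
Cycles on families of projective varieties: one family of linear subspaces for each subvariety of the
base.
-/

set_option autoImplicit false

open FF MvPolynomial Pool.Agent.Z15P.Z15.H Pool.Agent.Z15P.Z15.Chow

namespace Pool.Agent.Z15P.Rel

variable (K : Type) [Field K] {μ ν γ α : Type}

/-- The subvarieties of dimension at most `l` of the base `G c = 0`, given by their homogeneous prime
ideals: the closures of the points of the base with homogeneous coordinates `t` in an extension `E`
of `K`. -/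
def Subvarieties (l : ℕ) (G : γ → MvPolynomial μ K) : Set (Set (MvPolynomial μ K)) :=
  {W | ∃ (E : Type) (_ : Field E) (_ : Algebra K E) (t : μ → E), t ≠ 0 ∧ (∀ c, aeval t (G c) = 0) ∧
    Algebra.trdeg K (ratioField K t) ≤ l ∧ W = locus K t}

/-- The families of linear subspaces over the subvariety `W` of the base, as cycles of dimension `l`:
`t` is the generic point of `W`, with coordinates in the function field `E₀` of a generically finite
covering of `W`, and `Λ 0, …, Λ q` are linearly independent vectors with coordinates in `E₀` which span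
a linear subspace of the fibre of the family over `t`, `q + dim W = l`. The cycle is the family of these
linear subspaces: the point `(t, Λ 0 + ∑ j, θ j Λ (j + 1))` is its generic point (with multiplicity, as
the covering can have a degree larger than one), where `θ` are algebraically independent. -/
def FlagsOver (l : ℕ) (G : γ → MvPolynomial μ K) (F : α → MvPolynomial ν (MvPolynomial μ K))
    (W : Set (MvPolynomial μ K)) : Set (Set (MvPolynomial (μ × ν) K) →₀ ℤ) :=
  {c | ∃ (q : ℕ) (E₀ : Type) (_ : Field E₀) (_ : Algebra K E₀) (E : Type) (_ : Field E)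
    (_ : Algebra K E) (_ : Algebra E₀ E) (_ : IsScalarTower K E₀ E) (t : μ → E₀) (Λ : ℕ → ν → E₀)
    (θ : Fin q → E), Algebra.trdeg K E₀ + q = l ∧ t ≠ 0 ∧ (∀ c, aeval t (G c) = 0) ∧
    locus K t = W ∧ Algebra.EssFiniteType K E₀ ∧ Algebra.IsAlgebraic (ratioField K t) E₀ ∧
    (LinearIndependent E₀ fun j : Fin (q + 1) => Λ j) ∧
    (∀ a, ∀ c : Fin (q + 1) → E₀, eval (fun i => ∑ j, c j * Λ j i) (spec t (F a)) = 0) ∧
    AlgebraicIndependent E₀ θ ∧ IntermediateField.adjoin E₀ (Set.range θ) = ⊤ ∧
    c = cyc K (seg (fun i => algebraMap E₀ E (t i)) fun i =>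
      algebraMap E₀ E (Λ 0 i) + ∑ j : Fin q, θ j * algebraMap E₀ E (Λ (j + 1) i))}

/-- For each subvariety `W` of dimension at most `l` of the base there is a family `c W` of linear
subspaces of dimension `l - dim W` over `W` such that every cycle of dimension `l` on the family is, up
to torsion, rationally equivalent to a linear combination of the cycles `c W`. -/
def OneForEachSubvariety (l : ℕ) (G : γ → MvPolynomial μ K)
    (F : α → MvPolynomial ν (MvPolynomial μ K)) : Prop :=
  ∃ c : Set (MvPolynomial μ K) → (Set (MvPolynomial (μ × ν) K) →₀ ℤ),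
    (∀ W ∈ Subvarieties K l G, c W ∈ FlagsOver K l G F W) ∧
    ∀ Z ∈ Cycles K l G F, ∃ N : ℕ, 0 < N ∧
      N • Z ∈ Rat K l G F ⊔ AddSubgroup.closure (c '' Subvarieties K l G)

end Pool.Agent.Z15P.Rel
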