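import Pool.Agent.Z15P.Rel.Defs

/-!
Cycles on products of projective varieties.
-/

set_option autoImplicit false

open FF MvPolynomial Pool.Agent.Z15P.Z15.H Pool.Agent.Z15P.Z15.Chow

namespace Pool.Agent.Z15P.Rel

/-- A form in the variables `ν` with coefficients in `k`, as a form in the variables `ν` whose
coefficients are constant polynomials in the variables `μ` over the extension `K` of `k`. -/
noncomputable def cstF (k K μ : Type) [Field k] [Field K] [Algebra k K] {ν : Type}
    (P : MvPolynomial ν k) : MvPolynomial ν (MvPolynomial μ K) :=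
  map (algebraMap k (MvPolynomial μ K)) P

/-- The cycles `W × L` of dimension `l`, where `W` is a subvariety of the projective variety `G c = 0` and
`L` is the linear subspace spanned by `Λ 0, …, Λ q`, `q = l - dim W`. Here `W` has the generic point `t` and
the function field `E₀`, and the generic point of `L` is `Λ 0 + ∑ j, θ j Λ (j + 1)`, where `θ` are
algebraically independent over `E₀`. -/
def Products (K : Type) [Field K] {μ ν γ : Type} (l : ℕ) (G : γ → MvPolynomial μ K)
    (Λ : ℕ → ν → K) : Set (Set (MvPolynomial (μ × ν) K) →₀ ℤ) :=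
  {c | ∃ (q : ℕ) (E₀ : Type) (_ : Field E₀) (_ : Algebra K E₀) (E : Type) (_ : Field E)
    (_ : Algebra K E) (_ : Algebra E₀ E) (_ : IsScalarTower K E₀ E) (t : μ → E₀) (θ : Fin q → E),
    Algebra.trdeg K E₀ + q = l ∧ t ≠ 0 ∧ (∀ c, aeval t (G c) = 0) ∧ ratioField K t = ⊤ ∧
    AlgebraicIndependent E₀ θ ∧ IntermediateField.adjoin E₀ (Set.range θ) = ⊤ ∧
    c = cyc K (seg (fun i => algebraMap E₀ E (t i)) fun i =>
      algebraMap K E (Λ 0 i) + ∑ j : Fin q, θ j * algebraMap K E (Λ (j + 1) i))}

/-- Let `T` be the projective variety `G c = 0` over `K`, and let `V` be the projective variety `F a = 0`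
over the subfield `k` of `K`. Up to torsion, every cycle of dimension `l` on `T × V` is rationally
equivalent to a linear combination of the cycles `W × L`, where `W` is a subvariety of `T` and `L` is the
linear subspace spanned by `Λ 0, …, Λ q`, `q = l - dim W`. -/
def GeneratedByProducts {k : Type} [Field k] (K : Type) [Field K] [Algebra k K] {μ ν γ α : Type}
    (l : ℕ) (G : γ → MvPolynomial μ K) (F : α → MvPolynomial ν k) (Λ : ℕ → ν → k) : Prop :=
  ∀ Z ∈ Cycles K l G (fun a => cstF k K μ (F a)), ∃ N : ℕ, 0 < N ∧
    N • Z ∈ Rat K l G (fun a => cstF k K μ (F a)) ⊔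
      AddSubgroup.closure (Products K l G fun j i => algebraMap k K (Λ j i))

end Pool.Agent.Z15P.Rel
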