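import Pool.Agent.Z15P.Rel.Defs2
import Pool.Agent.Z15P.Rel.Comp
import Pool.Agent.T2h20.X15.FIN

/-!
Cycles on families: one family of linear subspaces for each subvariety of the base.
-/

set_option autoImplicit false

open FF FF.PP MvPolynomial Pool.Agent.Z15P.Z15.H Pool.Agent.Z15P.Z15.J Pool.Agent.Z15P.Z15.J.Stm
  Pool.Agent.Z15P.Z15.S Pool.Agent.Z15P.Z15.W

namespace Pool.Agent.Z15P.Rel

open Pool.Agent.Z15P.T2h62.J15 (nat_of_le)
open Pool.Agent.Z15P.T2h92.W15 (flag_li)
open Pool.Agent.Z15P.T2h64.H15 (cyc_scale locus_scale ratio_scale locus_map ratio_map)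

section

variable {K : Type} [Field K] {μ ν γ α : Type}

/-- the chosen data over the subvariety `W` -/
def Chosen (G : γ → MvPolynomial μ K) (F : α → MvPolynomial ν (MvPolynomial μ K)) (b : ν → ℕ)
    (s l : ℕ) (W : Set (MvPolynomial μ K)) (c : Set (MvPolynomial (μ × ν) K) →₀ ℤ) : Prop :=
  ∃ (δ q : ℕ) (K1 : Type) (_ : Field K1) (_ : Algebra K K1) (t : μ → K1) (Λ : ℕ → ν → K1)
    (Φ : (Set (MvPolynomial ν K1) →₀ ℤ) →+ (Set (MvPolynomial (μ × ν) K) →₀ ℤ)),
    q + δ = l ∧ IsFG δ K K1 ∧ t ≠ 0 ∧ (∀ c, aeval t (G c) = 0) ∧ locus K t = W ∧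
    Algebra.IsAlgebraic (ratioField K t) K1 ∧ Flag (fun a => spec t (F a)) b s Λ ∧ IsSegMap t Φ ∧
    c = Φ (lin K1 Λ q)

theorem Chosen.flags [Infinite K] [Fintype ν] {G : γ → MvPolynomial μ K}
    {F : α → MvPolynomial ν (MvPolynomial μ K)} {b : ν → ℕ} {s l : ℕ} (hl : l ≤ s)
    {W : Set (MvPolynomial μ K)} {c : Set (MvPolynomial (μ × ν) K) →₀ ℤ}
    (h : Chosen G F b s l W c) : c ∈ FlagsOver K l G F W := by
  obtain ⟨δ, q, K1, _, _, t, Λ, Φ, hq, hFG, ht, hG, hW, halg, hflag, hΦ, rfl⟩ := h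
  have hinf : Infinite K1 := Infinite.of_injective _ (algebraMap K K1).injective
  obtain ⟨L, _, _, ζ, hζ1, hζ2⟩ := exists_isGen K1 q
  have hli : LinearIndependent K1 (fun j : Fin (q + 1) => Λ j) := flag_li hflag (by omega)
  have hlin := Pool.Agent.Z15P.T2h99.J.t_LIN K1 ν L q ζ Λ hζ1 hζ2 hli
  let _ : Algebra K L := ((algebraMap K1 L).comp (algebraMap K K1)).toAlgebra
  have htow : IsScalarTower K K1 L := IsScalarTower.of_algebraMap_eq fun x => rfl
  rw [← hlin, hΦ L _ (gp_ne_zero hli ζ)]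
  refine ⟨q, K1, inferInstance, inferInstance, L, inferInstance, inferInstance,
    inferInstance, htow, t, Λ, ζ, ?_, ht, hG, hW, hFG.1, halg, hli, fun a c => ?_, hζ1, hζ2, rfl⟩
  · rw [hFG.2, add_comm]
    exact_mod_cast hq
  · have h1 := hflag.van a K1 (fun j => if h : j < q + 1 then c ⟨j, h⟩ else 0)
    rw [← MvPolynomial.coe_aeval_eq_eval]
    refine Eq.trans ?_ h1
    show aeval _ _ = aeval _ _
    congr 2
    funext i
    rw [← Finset.sum_subset (s₁ := Finset.range (q + 1)), Finset.sum_range]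
    · refine Finset.sum_congr rfl fun j _ => ?_
      rw [dif_pos j.2]
      rfl
    · intro j hj
      have := Finset.mem_range.1 hj
      exact Finset.mem_range.2 (by omega)
    · intro j _ hj
      rw [dif_neg (fun h => hj (Finset.mem_range.2 h)), zero_mul]

/-- the choice exists -/
theorem exists_chosen [Infinite K] [Fintype μ] [Fintype ν] [Fintype α] {G : γ → MvPolynomial μ K}
    {F : α → MvPolynomial ν (MvPolynomial μ K)} {g : γ → ℕ} {e d : α → ℕ} {b : ν → ℕ} {s m : ℕ}
    (hR : RSys G F g e d b s m) (hd : ∃ a, 2 ≤ d a) {l : ℕ}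
    {W : Set (MvPolynomial μ K)} (hW : W ∈ Subvarieties K l G) : ∃ c, Chosen G F b s l W c := by
  classical
  obtain ⟨E, _, _, t, ht, hG, hle, rfl⟩ := hW
  obtain ⟨δ, hδ, hδl⟩ := nat_of_le hle
  obtain ⟨j0, hj0⟩ : ∃ j, t j ≠ 0 := by
    by_contra hcon
    push Not at hcon
    exact ht (funext hcon)
  obtain ⟨κ, _, _, _, _, hfin, K1, t', Λ, hFG, ht', halg, hflag⟩ :=
    t_X_FLAGi t_X_SPEC w_FLAG K μ ν γ α G F g e d b s m hR hd E t j0 δ hj0 hδ
  have hc : (t j0)⁻¹ ≠ 0 := inv_ne_zero hj0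
  have hne : t' ≠ 0 := by
    intro h0
    have h1 := ht' j0
    rw [h0, inv_mul_cancel₀ hj0, map_one] at h1
    exact zero_ne_one h1
  have hcst : (fun i => K1.val (t' i)) =
      fun i => (IsScalarTower.toAlgHom K E κ) ((t j0)⁻¹ * t i) := funext ht'
  have hloc : locus K t' = locus K t := by
    rw [← locus_map K1.val t', hcst, locus_map (IsScalarTower.toAlgHom K E κ), locus_scale t _ hc]
  obtain ⟨Φ, hΦ⟩ := Pool.Agent.T2h4.X15.t_X_WD K K1 μ ν t' hne
  refine ⟨Φ (lin K1 Λ (l - δ)), δ, l - δ, K1, inferInstance, inferInstance, t', Λ, Φ, by omega, hFG,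
    hne, fun c => ?_, hloc, halg, hflag, hΦ, rfl⟩
  have h0 : aeval (fun i => (t j0)⁻¹ * t i) (G c) = 0 := by
    obtain ⟨hB, -, -, -⟩ := hR
    rw [Pool.Agent.Z15P.T2h64.H15.aeval_scale t _ (hB.base c), hG c, mul_zero]
  have h1 : K1.val (aeval t' (G c)) = 0 := by
    rw [comp_aeval_apply, hcst]
    have h2 := comp_aeval_apply (φ := IsScalarTower.toAlgHom K E κ) (fun i => (t j0)⁻¹ * t i) (G c)
    rw [← h2, h0, map_zero]
  exact (map_eq_zero K1.val).1 h1

end

theorem x_STRONG (K : Type) [Field K] [Infinite K] (μ ν γ α : Type) [Fintype μ] [Fintype ν]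
    [Fintype α] [Nonempty α] (G : γ → MvPolynomial μ K) (F : α → MvPolynomial ν (MvPolynomial μ K))
    (g : γ → ℕ) (e d : α → ℕ) (b : ν → ℕ) (s m : ℕ) (hR : RSys G F g e d b s m)
    (hd : ∃ a, 2 ≤ d a) (l : ℕ) (hl : l ≤ s)
    (ch : Set (MvPolynomial μ K) → (Set (MvPolynomial (μ × ν) K) →₀ ℤ))
    (hch : ∀ W ∈ Subvarieties K l G, Chosen G F b s l W (ch W)) :
    ∀ (E : Type) [Field E] [Algebra K E] (t : μ → E) (x : ν → E),
      Algebra.trdeg K E = l → IsPt G F t x →
      cyc K (seg t x) ∈ Sat0 (RatX K l G F ⊔ AddSubgroup.closure (ch '' Subvarieties K l G)) := by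
  classical
  obtain ⟨R, hRdef⟩ : ∃ R, R = RatX K l G F ⊔ AddSubgroup.closure (ch '' Subvarieties K l G) :=
    ⟨_, rfl⟩
  rw [← hRdef]
  have key : ∀ δ : ℕ, ∀ (E : Type) [Field E] [Algebra K E] (t : μ → E) (x : ν → E),
      Algebra.trdeg K E = l → IsPt G F t x → Algebra.trdeg K (ratioField K t) = δ →
      cyc K (seg t x) ∈ Sat0 R := by
    intro δ
    induction δ using Nat.strong_induction_on with
    | _ δ ih =>
      intro E _ _ t x hE hpt hδ
      obtain ⟨hS1, hS2, hS3, hS4⟩ := t_X_SPEC K μ ν γ α G F g e d b s m hR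
      obtain ⟨j0, hj0⟩ : ∃ j, t j ≠ 0 := by
        by_contra hcon
        push Not at hcon
        exact hpt.t_ne (funext hcon)
      have hle : Algebra.trdeg K (ratioField K t) ≤ l := by
        rw [← hE]
        exact trdeg_le_of_injective (ratioField K t).val (ratioField K t).val.injective
      have hWs : locus K t ∈ Subvarieties K l G := ⟨E, _, _, t, hpt.t_ne, hpt.base, hle, rfl⟩
      have hcin : ch (locus K t) ∈ R := by
        rw [hRdef]
        exact AddSubgroup.mem_sup_right (AddSubgroup.subset_closure ⟨_, hWs, rfl⟩)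
      obtain ⟨δ1, q, K1, _, _, t1, Λ, Φ, hql', hFG, ht1, hbase, hW, halg, hflag, hΦ, hcΦ⟩ :=
        hch _ hWs
      obtain ⟨κ, _, _, _, _, _, _, hfin, u, hu, htu⟩ :=
        exists_comp (K := K) t t1 j0 hj0 hW.symm hFG.1 halg
      have hinf : Infinite K1 := Infinite.of_injective _ (algebraMap K K1).injective
      obtain ⟨xκ, hxκ⟩ : ∃ xκ : ν → κ, xκ = fun i => algebraMap E κ (x i) := ⟨_, rfl⟩
      -- the point over `κ`
      have hcst : cst κ t1 = fun i => u * algebraMap E κ (t i) := funext htu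
      have hptκ : IsPt G F (cst κ t1) xκ := by
        have h2 := (hS3 E κ (IsScalarTower.toAlgHom K E κ) _ _).1 hpt
        have h3 := hS2 κ _ _ u 1 hu one_ne_zero h2
        rw [hcst, hxκ]
        have e1 : (fun i => (1 : κ) * (IsScalarTower.toAlgHom K E κ) (x i)) =
            fun i => algebraMap E κ (x i) := by
          funext i
          rw [one_mul]
          rfl
        rw [e1] at h3
        exact h3
      have hfib : ∀ a, aeval xκ (spec t1 (F a)) = 0 := by
        intro a
        have h1 := hptκ.fib a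
        have h2 := hS4 K1 κ (IsScalarTower.toAlgHom K K1 κ) t1 (F a)
        have h3 : (fun i => (IsScalarTower.toAlgHom K K1 κ) (t1 i)) = cst κ t1 := rfl
        rw [h3] at h2
        rw [← h2, eval_map] at h1
        exact h1
      -- the dimension of the image
      have hδ1 : δ1 = δ := by
        have e1 : (ratioField K t).map (IsScalarTower.toAlgHom K E κ) =
            (ratioField K t1).map (IsScalarTower.toAlgHom K K1 κ) := by
          rw [← ratio_map, ← ratio_map]
          have h3 : (fun i => (IsScalarTower.toAlgHom K K1 κ) (t1 i)) =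
            fun i => u * (IsScalarTower.toAlgHom K E κ) (t i) := hcst
          rw [h3, ratio_scale _ u hu]
        have f1 := (IntermediateField.equivMap (ratioField K t) (IsScalarTower.toAlgHom K E κ))
        have f2 := (IntermediateField.equivMap (ratioField K t1) (IsScalarTower.toAlgHom K K1 κ))
        have h1 : Algebra.trdeg K (ratioField K t1) = Algebra.trdeg K (ratioField K t) :=
          ((f2.trans (IntermediateField.equivOfEq e1.symm)).trans f1.symm).trdeg_eq
        have h0 : Algebra.trdeg (ratioField K t1) K1 = 0 := trdeg_eq_zero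
        have h2 := trdeg_add_eq K (ratioField K t1) (A := K1)
        rw [h0, add_zero, h1, hδ, hFG.2] at h2
        exact_mod_cast h2.symm
      subst hδ1
      -- dimensions
      have hEκ : Algebra.trdeg K κ = l := by
        have h0 : Algebra.trdeg E κ = 0 := trdeg_eq_zero
        rw [← trdeg_add_eq K E (A := κ), h0, add_zero, hE]
      have hsum : Algebra.trdeg K K1 + Algebra.trdeg K1 κ = (l : Cardinal) := by
        rw [← hEκ]
        exact trdeg_add_eq K K1
      obtain ⟨q', hq, hql⟩ := nat_of_le (a := Algebra.trdeg K1 κ) (n := l)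
        (by rw [← hsum]; exact le_add_self)
      have hδq : δ1 + q' = l := by
        rw [hFG.2, hq] at hsum
        exact_mod_cast hsum
      have hqq : q' = q := by omega
      subst hqq
      -- cycles on the generic fibre
      have hPq := w_P s K1 ν α (fun a => spec t1 (F a)) d b m (hS1 K1 t1) Λ hflag q'
        (hql.trans hl) κ xκ hq hptκ.x_ne hfib
      obtain ⟨N, hN, m0, hD⟩ := hPq
      have hT := Pool.Agent.T2h4.X15.t_X_TR t_X_SPEC K K1 μ ν γ α δ1 q' hFG G F g e d hR.bihom t1 ht1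
        hbase Φ hΦ _ hD
      rw [map_sub, map_nsmul, map_zsmul, hΦ κ xκ hptκ.x_ne, hql'] at hT
      -- the cycle over `κ`
      have hVX : AddSubgroup.closure (VX K l δ1 G F) ≤ Sat0 R := by
        refine (AddSubgroup.closure_le _).2 ?_
        rintro c ⟨E2, _, _, t2, x2, hpt2, htr2, hlt, rfl⟩
        obtain ⟨δ', hδ', -⟩ := nat_of_le hlt.le
        rw [hδ'] at hlt
        exact ih δ' (by exact_mod_cast hlt) E2 t2 x2 htr2 hpt2 hδ'
      have hRX : RatX K l G F ≤ Sat0 R := le_trans (by rw [hRdef]; exact le_sup_left) (le_sat0 R)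
      have hFlag : Φ (lin K1 Λ q') ∈ Sat0 R := le_sat0 R (hcΦ ▸ hcin)
      have h1 : N • cyc K (seg (cst κ t1) xκ) - m0 • Φ (lin K1 Λ q') ∈ Sat0 R :=
        (sup_le hRX hVX) hT
      have h2 : N • cyc K (seg (cst κ t1) xκ) ∈ Sat0 R := by
        have h3 := add_mem h1 (zsmul_mem hFlag m0)
        rwa [sub_add_cancel] at h3
      have h4 := Sat0.of_nsmul hN h2
      -- descent to `E`
      have h5 : cyc K (seg (cst κ t1) xκ) = Module.finrank E κ • cyc K (seg t x) := by
        rw [← (Pool.Agent.Z15P.T2h99.J.t_CYC2 K (μ × ν) E).2.2.1 κ (seg t x),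
          ← (Pool.Agent.Z15P.T2h99.J.t_CYC2 K (μ × ν) κ).1
          (fun i => algebraMap E κ (seg t x i)) u hu]
        congr 1
        funext i
        rw [hcst, hxκ]
        unfold seg
        simp only [map_mul]
        ring
      rw [h5] at h4
      exact Sat0.of_nsmul Module.finrank_pos h4
  intro E _ _ t x hE hpt
  have hle : Algebra.trdeg K (ratioField K t) ≤ l := by
    rw [← hE]
    exact trdeg_le_of_injective (ratioField K t).val (ratioField K t).val.injective
  obtain ⟨δ, hδ, -⟩ := nat_of_le hle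
  exact key δ E t x hE hpt hδ

/-- the strong form of the main theorem -/
theorem x_ONE (K : Type) [Field K] [Infinite K] (μ ν γ α : Type) [Fintype μ] [Fintype ν]
    [Fintype α] [Nonempty α] (G : γ → MvPolynomial μ K) (F : α → MvPolynomial ν (MvPolynomial μ K))
    (g : γ → ℕ) (e d : α → ℕ) (b : ν → ℕ) (s m : ℕ) (hR : RSys G F g e d b s m)
    (hd : ∃ a, 2 ≤ d a) (l : ℕ) (hl : l ≤ s) : OneForEachSubvariety K l G F := by
  classical
  obtain ⟨ch, hch⟩ : ∃ ch : Set (MvPolynomial μ K) → (Set (MvPolynomial (μ × ν) K) →₀ ℤ),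
      ∀ W ∈ Subvarieties K l G, Chosen G F b s l W (ch W) := by
    refine ⟨fun W => if h : ∃ c, Chosen G F b s l W c then h.choose else 0, fun W hW => ?_⟩
    have h := exists_chosen hR hd hW
    simp only [dif_pos h]
    exact h.choose_spec
  refine ⟨ch, fun W hW => (hch W hW).flags hl, fun Z hZ => ?_⟩
  have h1 : Z ∈ Sat0 (RatX K l G F ⊔ AddSubgroup.closure (ch '' Subvarieties K l G)) := by
    refine (AddSubgroup.closure_le _).2 ?_ hZ
    rintro c ⟨E, _, _, t, x, hE, hpt, rfl⟩
    exact x_STRONG K μ ν γ α G F g e d b s m hR hd l hl ch hch E t x hE hpt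
  obtain ⟨N, hN, h2⟩ := h1
  exact ⟨N, hN, sup_le_sup_right (t_X_FIN K μ ν γ α G F l) _ h2⟩

end Pool.Agent.Z15P.Rel
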