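import Pool.Agent.Z15P.Rel.DefsP
import Pool.Agent.Z15P.Rel.Strong

/-!
Cycles on products `T × V`, where `V` is given by forms with few mixed monomials.
-/

set_option autoImplicit false

open FF FF.PP MvPolynomial Pool.Agent.Z15P.Z15.H Pool.Agent.Z15P.Z15.J Pool.Agent.Z15P.Z15.J.Stm
  Pool.Agent.Z15P.Z15.S Pool.Agent.Z15P.Z15.W

namespace Pool.Agent.Z15P.Rel

open Pool.Agent.Z15P.T2h62.J15 (nat_of_le)
open Pool.Agent.Z15P.T2h92.W15 (flag_li)
open Pool.Agent.Z15P.T2h64.H15 (cyc_scale locus_scale ratio_scale locus_map ratio_map)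

section

variable {k K : Type} [Field k] [Field K] [Algebra k K] {μ ν γ α : Type}

theorem spec_cst {E : Type} [Field E] [Algebra K E] [Algebra k E] [IsScalarTower k K E] (t : μ → E)
    (P : MvPolynomial ν k) : spec t (cstF k K μ P) = map (algebraMap k E) P := by
  unfold spec cstF
  rw [map_map]
  have h : (aeval t : MvPolynomial μ K →ₐ[K] E).toRingHom.comp (algebraMap k (MvPolynomial μ K)) =
      algebraMap k E := by
    refine RingHom.ext fun x => ?_
    show aeval t (algebraMap k (MvPolynomial μ K) x) = algebraMap k E x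
    rw [IsScalarTower.algebraMap_apply k K (MvPolynomial μ K), IsScalarTower.algebraMap_apply k K E]
    exact (aeval t : MvPolynomial μ K →ₐ[K] E).commutes _
  rw [h]

theorem rsys_cst [Fintype ν] [Fintype α] {G : γ → MvPolynomial μ K} {F : α → MvPolynomial ν k}
    {g : γ → ℕ} {d : α → ℕ} {b : ν → ℕ} {s m : ℕ} (hG : ∀ c, (G c).IsHomogeneous (g c))
    (h : Sys F d b s m) : RSys G (fun a => cstF k K μ (F a)) g (fun _ => 0) d b s m where
  bihom :=
    { base := hG
      hom := fun a => (h.hom a).map _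
      thom := fun a n => by
        show ((map (algebraMap k (MvPolynomial μ K)) (F a)).coeff n).IsHomogeneous 0
        rw [coeff_map, IsScalarTower.algebraMap_apply k K (MvPolynomial μ K)]
        exact isHomogeneous_C _ _ }
  pos := h.pos
  mix := fun a n hn => h.mix a n (support_map_subset _ _ hn)
  sizes := h.sizes

theorem ess_ratio {E : Type} [Field E] [Algebra K E] [Fintype μ] (t : μ → E) :
    Algebra.EssFiniteType K (ratioField K t) := by
  rw [IntermediateField.essFiniteType_iff]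
  unfold ratioField
  refine IntermediateField.fg_adjoin_of_finite ?_
  refine (Set.finite_range fun p : μ × μ => t p.1 / t p.2).subset ?_
  rintro z ⟨i, j, rfl⟩
  exact ⟨(i, j), rfl⟩

/-- the chosen data with the constant linear subspaces -/
theorem exists_chosenP [Infinite K] [Fintype μ] [Fintype ν] {G : γ → MvPolynomial μ K}
    {F : α → MvPolynomial ν k} {g : γ → ℕ} {b : ν → ℕ} {s l : ℕ} (hl : l ≤ s)
    (hG : ∀ c, (G c).IsHomogeneous (g c)) {Λ : ℕ → ν → k} (hΛ : Flag F b s Λ)
    {W : Set (MvPolynomial μ K)} (hW : W ∈ Subvarieties K l G) :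
    ∃ c, Chosen G (fun a => cstF k K μ (F a)) b s l W c ∧
      c ∈ Products K l G fun j i => algebraMap k K (Λ j i) := by
  classical
  obtain ⟨E, _, _, t, ht, hGt, hle, rfl⟩ := hW
  obtain ⟨δ, hδ, hδl⟩ := nat_of_le hle
  obtain ⟨j0, hj0⟩ : ∃ j, t j ≠ 0 := by
    by_contra hcon
    push Not at hcon
    exact ht (funext hcon)
  obtain ⟨e, he, hel, her, hej⟩ := exists_norm (K := K) t j0 hj0
  let K1 := ratioField K t
  let _ : Algebra k K1 := ((algebraMap K K1).comp (algebraMap k K)).toAlgebra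
  have htowk : IsScalarTower k K K1 := IsScalarTower.of_algebraMap_eq fun x => rfl
  have hinf : Infinite K1 := Infinite.of_injective _ (algebraMap K K1).injective
  have hne : e ≠ 0 := by
    intro h0
    rw [h0] at hej
    exact zero_ne_one hej
  have hFG : IsFG δ K K1 := ⟨ess_ratio t, hδ⟩
  have hbase : ∀ c, aeval e (G c) = 0 := by
    intro c
    have h0 : aeval (fun i => (t j0)⁻¹ * t i) (G c) = 0 := by
      rw [Pool.Agent.Z15P.T2h64.H15.aeval_scale t _ (hG c), hGt c, mul_zero]
    have h1 : K1.val (aeval e (G c)) = 0 := by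
      rw [comp_aeval_apply]
      have h2 : (fun i => K1.val (e i)) = fun i => (t j0)⁻¹ * t i := funext he
      rw [h2, h0]
    exact (map_eq_zero K1.val).1 h1
  have halg : Algebra.IsAlgebraic (ratioField K e) K1 := by
    refine ⟨fun x => ?_⟩
    have hx : x ∈ ratioField K e := by
      rw [her]
      trivial
    exact isAlgebraic_algebraMap (⟨x, hx⟩ : ratioField K e)
  obtain ⟨Λ1, hΛ1⟩ : ∃ Λ1 : ℕ → ν → K1, Λ1 = fun j i => algebraMap k K1 (Λ j i) := ⟨_, rfl⟩
  have hflag : Flag (fun a => spec e (cstF k K μ (F a))) b s Λ1 := by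
    have h1 := flag_map (K := K1) hΛ
    have h2 : (fun a => spec e (cstF k K μ (F a))) = fun a => map (algebraMap k K1) (F a) :=
      funext fun a => spec_cst e (F a)
    rw [h2, hΛ1]
    exact h1
  obtain ⟨Φ, hΦ⟩ := Pool.Agent.T2h4.X15.t_X_WD K K1 μ ν e hne
  obtain ⟨q, hq⟩ : ∃ q, q + δ = l := ⟨l - δ, by omega⟩
  refine ⟨Φ (lin K1 Λ1 q), ⟨δ, q, K1, inferInstance, inferInstance, e, Λ1, Φ, hq, hFG, hne, hbase,
    hel, halg, hflag, hΦ, rfl⟩, ?_⟩
  obtain ⟨L, _, _, ζ, hζ1, hζ2⟩ := exists_isGen K1 q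
  have hli : LinearIndependent K1 (fun j : Fin (q + 1) => Λ1 j) := flag_li hflag (by omega)
  have hlin := Pool.Agent.Z15P.T2h99.J.t_LIN K1 ν L q ζ Λ1 hζ1 hζ2 hli
  let _ : Algebra K L := ((algebraMap K1 L).comp (algebraMap K K1)).toAlgebra
  have htow : IsScalarTower K K1 L := IsScalarTower.of_algebraMap_eq fun x => rfl
  rw [← hlin, hΦ L _ (gp_ne_zero hli ζ)]
  refine ⟨q, K1, inferInstance, inferInstance, L, inferInstance, inferInstance,
    inferInstance, htow, e, ζ, ?_, hne, hbase, her, hζ1, hζ2, ?_⟩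
  · rw [hδ, add_comm]
    exact_mod_cast hq
  · rw [hΛ1]
    rfl

end

/-- the main theorem on products -/
theorem x_PROD (k : Type) [Field k] [IsAlgClosed k] (ν α : Type) [Fintype ν] [Fintype α]
    [Nonempty α] (F : α → MvPolynomial ν k) (d : α → ℕ) (b : ν → ℕ) (s m : ℕ) (hS : Sys F d b s m)
    (hd : ∃ a, 2 ≤ d a) :
    ∃ Λ : ℕ → ν → k, (LinearIndependent k fun j : Fin (s + 1) => Λ j) ∧
      (∀ (a : α) (c : Fin (s + 1) → k), eval (fun i => ∑ j, c j * Λ j i) (F a) = 0) ∧
      ∀ (K : Type) [Field K] [Algebra k K] (μ γ : Type) [Fintype μ] (G : γ → MvPolynomial μ K)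
        (g : γ → ℕ), (∀ c, (G c).IsHomogeneous (g c)) → ∀ l : ℕ, l ≤ s →
          GeneratedByProducts K l G F Λ := by
  classical
  have hk : Infinite k := IsAlgClosed.instInfinite
  obtain ⟨Λ, hΛ⟩ := w_FLAG k ν α F d b s m hS hd
  refine ⟨Λ, flag_indep hΛ, ?_, ?_⟩
  · intro a c
    have h1 := hΛ.van a k (fun n => if h : n < s + 1 then c ⟨n, h⟩ else 0)
    have e2 : ∀ (f : ν → k) (G : MvPolynomial ν k), aeval f G = eval f G := fun f G => by
      rw [← coe_aeval_eq_eval]
      rfl
    rw [e2] at h1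
    rw [← h1]
    refine congrArg (fun f => eval f (F a)) (funext fun i => ?_)
    rw [Finset.sum_range]
    refine Finset.sum_congr rfl fun j _ => ?_
    rw [dif_pos j.2]
    rfl
  · intro K _ _ μ γ _ G g hG l hl Z hZ
    have hK : Infinite K := Infinite.of_injective _ (algebraMap k K).injective
    have hex : ∀ W ∈ Subvarieties K l G, ∃ c, Chosen G (fun a => cstF k K μ (F a)) b s l W c ∧
      c ∈ Products K l G fun j i => algebraMap k K (Λ j i) := fun W hW => exists_chosenP hl hG hΛ hW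
    obtain ⟨ch, hch⟩ : ∃ ch : Set (MvPolynomial μ K) → (Set (MvPolynomial (μ × ν) K) →₀ ℤ),
        ∀ W ∈ Subvarieties K l G, Chosen G (fun a => cstF k K μ (F a)) b s l W (ch W) ∧
          ch W ∈ Products K l G fun j i => algebraMap k K (Λ j i) := by
      refine ⟨fun W => if h : ∃ c, Chosen G (fun a => cstF k K μ (F a)) b s l W c ∧
        c ∈ Products K l G fun j i => algebraMap k K (Λ j i) then h.choose else 0, fun W hW => ?_⟩
      have h := hex W hW
      simp only [dif_pos h]
      exact h.choose_spec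
    have h1 : Z ∈ Sat0 (RatX K l G (fun a => cstF k K μ (F a)) ⊔
        AddSubgroup.closure (ch '' Subvarieties K l G)) := by
      refine (AddSubgroup.closure_le _).2 ?_ hZ
      rintro c ⟨E, _, _, t, x, hE, hpt, rfl⟩
      exact x_STRONG K μ ν γ α G _ g (fun _ => 0) d b s m (rsys_cst hG hS) hd l hl ch
        (fun W hW => (hch W hW).1) E t x hE hpt
    obtain ⟨N, hN, h2⟩ := h1
    refine ⟨N, hN, sup_le_sup (t_X_FIN K μ ν γ α G _ l) ?_ h2⟩
    refine (AddSubgroup.closure_le _).2 ?_
    rintro _ ⟨W, hW, rfl⟩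
    exact AddSubgroup.subset_closure (hch W hW).2

end Pool.Agent.Z15P.Rel
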