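import Pool.Agent.Z15P.Rel.Defs
import Pool.Agent.Z15P.Z15.W.All

/-!
Statements of lemmas (tasks of helper15, prefix X_: families).
-/

set_option autoImplicit false

open FF FF.PP MvPolynomial Pool.Agent.Z15P.Z15.H Pool.Agent.Z15P.Z15.J Pool.Agent.Z15P.Z15.J.Stm
  Pool.Agent.Z15P.Z15.S Pool.Agent.Z15P.Z15.W

namespace Pool.Agent.Z15P.Rel

section

variable {K : Type} [Field K] {μ ν γ α : Type}

/-- the equations are bihomogeneous -/
structure Bihom (G : γ → MvPolynomial μ K) (F : α → MvPolynomial ν (MvPolynomial μ K)) (g : γ → ℕ)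
    (e d : α → ℕ) : Prop where
  base : ∀ c, (G c).IsHomogeneous (g c)
  hom : ∀ a, (F a).IsHomogeneous (d a)
  thom : ∀ a n, ((F a).coeff n).IsHomogeneous (e a)

/-- the hypotheses on the family -/
structure RSys [Fintype ν] [Fintype α] (G : γ → MvPolynomial μ K)
    (F : α → MvPolynomial ν (MvPolynomial μ K)) (g : γ → ℕ) (e d : α → ℕ) (b : ν → ℕ) (s m : ℕ) :
    Prop where
  bihom : Bihom G F g e d
  pos : ∀ a, 0 < d a
  mix : ∀ a, ∀ n ∈ (F a).support, ∀ i, n i ≠ 0 → ∑ i' with b i < b i' ∧ b i' ≤ s, n i' ≤ m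
  sizes : Sizes b s m (∑ a, d a)

/-- the same as `Rat`, with the divisors of `Pool.Agent.Z15P.Z15.J` -/
noncomputable def RatX (K : Type) [Field K] (l : ℕ) (G : γ → MvPolynomial μ K)
    (F : α → MvPolynomial ν (MvPolynomial μ K)) : AddSubgroup (Set (MvPolynomial (μ × ν) K) →₀ ℤ) :=
  AddSubgroup.closure {D | ∃ (M : Type) (_ : Field M) (_ : Algebra K M) (t : μ → M) (x : ν → M)
    (h : M), IsFG (l + 1) K M ∧ IsPt G F t x ∧ h ≠ 0 ∧ Z15.J.IsDivisor K l (seg t x) h D}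

/-- cycles of dimension `l` whose images in the base have dimension less than `δ` -/
def VX (K : Type) [Field K] (l δ : ℕ) (G : γ → MvPolynomial μ K)
    (F : α → MvPolynomial ν (MvPolynomial μ K)) : Set (Set (MvPolynomial (μ × ν) K) →₀ ℤ) :=
  {c | ∃ (E : Type) (_ : Field E) (_ : Algebra K E) (t : μ → E) (x : ν → E), IsPt G F t x ∧
    Algebra.trdeg K E = l ∧ Algebra.trdeg K (ratioField K t) < (δ : ℕ) ∧ c = cyc K (seg t x)}

/-- `Φ` maps a point `e` of the fibre over `t` to the point `(t, e)` -/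
def IsSegMap {K0 K1 : Type} [Field K0] [Field K1] [Algebra K0 K1] (t : μ → K1)
    (Φ : (Set (MvPolynomial ν K1) →₀ ℤ) →+ (Set (MvPolynomial (μ × ν) K0) →₀ ℤ)) : Prop :=
  ∀ (κ : Type) [Field κ] [Algebra K1 κ] [Algebra K0 κ] [IsScalarTower K0 K1 κ] (e : ν → κ), e ≠ 0 →
    Φ (cyc K1 e) = cyc K0 (seg (cst κ t) e)

end

/-- the fibres satisfy the hypotheses of `W_P` -/
def X_SPEC : Prop :=
  ∀ (K : Type) [Field K] (μ ν γ α : Type) [Fintype ν] [Fintype α] (G : γ → MvPolynomial μ K)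
    (F : α → MvPolynomial ν (MvPolynomial μ K)) (g : γ → ℕ) (e d : α → ℕ) (b : ν → ℕ) (s m : ℕ),
    RSys G F g e d b s m →
    (∀ (E : Type) [Field E] [Algebra K E] (t : μ → E), Sys (fun a => spec t (F a)) d b s m) ∧
    (∀ (E : Type) [Field E] [Algebra K E] (t : μ → E) (x : ν → E) (c c' : E), c ≠ 0 → c' ≠ 0 →
      IsPt G F t x → IsPt G F (fun i => c * t i) (fun i => c' * x i)) ∧
    (∀ (E E' : Type) [Field E] [Field E'] [Algebra K E] [Algebra K E'] (φ : E →ₐ[K] E')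
      (t : μ → E) (x : ν → E), IsPt G F t x ↔ IsPt G F (fun i => φ (t i)) (fun i => φ (x i))) ∧
    (∀ (E E' : Type) [Field E] [Field E'] [Algebra K E] [Algebra K E'] (φ : E →ₐ[K] E')
      (t : μ → E) (P : MvPolynomial ν (MvPolynomial μ K)),
      MvPolynomial.map (φ : E →+* E') (spec t P) = spec (fun i => φ (t i)) P)

/-- existence of `Φ` -/
def X_WD : Prop :=
  ∀ (K0 K1 : Type) [Field K0] [Field K1] [Algebra K0 K1] [Infinite K0] (μ ν : Type) [Fintype μ]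
    [Fintype ν] (t : μ → K1), t ≠ 0 →
    ∃ Φ : (Set (MvPolynomial ν K1) →₀ ℤ) →+ (Set (MvPolynomial (μ × ν) K0) →₀ ℤ), IsSegMap t Φ

/-- rational equivalence on the generic fibre -/
def X_TR : Prop :=
  ∀ (K0 K1 : Type) [Field K0] [Field K1] [Algebra K0 K1] [Infinite K0] (μ ν γ α : Type) [Fintype μ]
    [Fintype ν] (δ q : ℕ), IsFG δ K0 K1 → ∀ (G : γ → MvPolynomial μ K0)
    (F : α → MvPolynomial ν (MvPolynomial μ K0)) (g : γ → ℕ) (e d : α → ℕ), Bihom G F g e d →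
    ∀ t : μ → K1, t ≠ 0 → (∀ c, aeval t (G c) = 0) →
    ∀ (Φ : (Set (MvPolynomial ν K1) →₀ ℤ) →+ (Set (MvPolynomial (μ × ν) K0) →₀ ℤ)), IsSegMap t Φ →
    ∀ D ∈ RatS K1 q (fun a => spec t (F a)),
      Φ D ∈ RatX K0 (q + δ) G F ⊔ AddSubgroup.closure (VX K0 (q + δ) δ G F)

/-- flags in the fibres -/
def X_FLAG : Prop :=
  ∀ (K : Type) [Field K] [Infinite K] (μ ν γ α : Type) [Fintype μ] [Fintype ν] [Fintype α]
    (G : γ → MvPolynomial μ K) (F : α → MvPolynomial ν (MvPolynomial μ K)) (g : γ → ℕ)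
    (e d : α → ℕ) (b : ν → ℕ) (s m : ℕ), RSys G F g e d b s m → (∃ a, 2 ≤ d a) →
    ∀ (E : Type) [Field E] [Algebra K E] (t : μ → E) (j0 : μ) (δ : ℕ), t j0 ≠ 0 →
      Algebra.trdeg K (ratioField K t) = δ →
      ∃ (κ : Type) (_ : Field κ) (_ : Algebra K κ) (_ : Algebra E κ) (_ : IsScalarTower K E κ)
        (_ : FiniteDimensional E κ) (K1 : IntermediateField K κ) (t' : μ → K1) (Λ : ℕ → ν → K1),
        IsFG δ K K1 ∧ (∀ i, (t' i : κ) = algebraMap E κ ((t j0)⁻¹ * t i)) ∧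
        Algebra.IsAlgebraic (ratioField K t') K1 ∧ Flag (fun a => spec t' (F a)) b s Λ

/-- the main theorem -/
def X_MAIN : Prop :=
  ∀ (K : Type) [Field K] [Infinite K] (μ ν γ α : Type) [Fintype μ] [Fintype ν] [Fintype α]
    [Nonempty α] (G : γ → MvPolynomial μ K) (F : α → MvPolynomial ν (MvPolynomial μ K)) (g : γ → ℕ)
    (e d : α → ℕ) (b : ν → ℕ) (s m : ℕ), RSys G F g e d b s m → (∃ a, 2 ≤ d a) →
    ∀ l : ℕ, l ≤ s → ∀ (E : Type) [Field E] [Algebra K E] (t : μ → E) (x : ν → E),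
      Algebra.trdeg K E = l → IsPt G F t x → ∃ N : ℕ, 0 < N ∧
        N • cyc K (seg t x) ∈ RatX K l G F ⊔ AddSubgroup.closure (Flags K l G F)

/-- comparison of the definitions -/
def X_FIN : Prop :=
  ∀ (K : Type) [Field K] (μ ν γ α : Type) (G : γ → MvPolynomial μ K)
    (F : α → MvPolynomial ν (MvPolynomial μ K)) (l : ℕ), RatX K l G F ≤ Rat K l G F

def X_FLAGi : Prop := X_SPEC → W_FLAG → X_FLAG
def X_MAINi : Prop := X_SPEC → X_WD → X_TR → X_FLAG → (∀ s, W_P s) → T_CYC2 → T_LIN → X_MAIN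

end Pool.Agent.Z15P.Rel
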